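import Pool.Agent.helper15.KDef
import Pool.Agent.helper14.Kumar.Main
import Pool.Agent.helper14.Kumar.Short

/-! Kumar's conjecture holds for every even `n` and every `i` below the largest prime
`p ≤ n + 1`; in particular for all `i ≤ (1 - o(1)) n` and for all `i ≤ n / 2`. -/

namespace Pool.Agent.Results.MP_4825cb_ag.BelowPrime

open Pool.Agent.helper15.Kumar

/-- (1) For every even `n`, every prime `p ≤ n + 1` and every `i < p` the module `S_{(n^i)}`
occurs in the coordinate ring of the Chow variety.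
(2) For every `ε > 0` this covers, for all large even `n`, all `i ≤ (1 - ε) n`.
(3) It covers all even `n` and all `i ≤ n / 2`. -/
theorem result :
    (∀ n p i : ℕ, Even n → p.Prime → p ≤ n + 1 → i < p → KumarOccurs n i) ∧
    (∀ ε : ℝ, 0 < ε → ∃ N : ℕ, ∀ n i : ℕ, Even n → N ≤ n → (i : ℝ) ≤ (1 - ε) * n →
      KumarOccurs n i) ∧
    (∀ n i : ℕ, Even n → 1 ≤ i → 2 * i ≤ n → KumarOccurs n i) := by
  refine ⟨fun n p i hn hp hle hi => Pool.Agent.helper14.Kumar.kumar_of_prime hn hp hle hi,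
    fun ε hε => ?_, fun n i hn h1 hi => ?_⟩
  · obtain ⟨N, hN⟩ := Pool.Agent.helper14.Kumar.exists_prime_short hε
    refine ⟨N, fun n i hn hNn hi => ?_⟩
    obtain ⟨p, hp, hle, hlt⟩ := hN n hNn
    have h2 : (i : ℝ) < p := lt_of_le_of_lt hi hlt
    exact Pool.Agent.helper14.Kumar.kumar_of_prime hn hp (by omega) (by exact_mod_cast h2)
  · obtain ⟨m, hm⟩ := hn
    obtain ⟨p, hp, hlt, hle⟩ := Nat.exists_prime_lt_and_le_two_mul m (by omega)
    exact Pool.Agent.helper14.Kumar.kumar_of_prime ⟨m, hm⟩ hp (by omega) (by omega)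

end Pool.Agent.Results.MP_4825cb_ag.BelowPrime
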